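import Pool.Agent.Work.MP_223b32_FY.Interface2
import Pool.Agent.Work.MP_223b32_FF.FINALb
import Pool.Agent.Work.MP_223b32_FF.FINALc

/-!
# Block LARGE2: few pairs without a common prime (adapted from FF.FINALb, FF.FINALc)
-/

namespace Pool.Agent.Work.FY

open Polynomial Finset TensorProduct Pool.Agent.Work.MP_223b32_ag
open Pool.Agent.Work.MP_223b32_ag_56 Pool.Agent.Work.FF Pool.Agent.Work.T3

namespace LARGE2

/-- Choice of the parameters. -/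
theorem params2 {g Z₀ : ℕ} {y : ℝ} (hg : 1 ≤ g)
    (hCg : ∀ C : ℝ, 1 ≤ C → C ≤ 10 ^ 13 → C ^ g ≤ y) (hy2 : 2 * (Z₀ : ℝ) ≤ y) (hy6 : 6 ≤ y) :
    ∃ (Z R : ℕ) (ρ : ℝ), 1 ≤ R ∧ (R : ℝ) * 300 ^ g ≤ y ^ 8 ∧ 0 ≤ ρ ∧ ρ ≤ 1 ∧
      (Z : ℝ) ^ 2 ≤ ρ * R ∧ 4 ^ g * ρ ≤ 1 / Z ∧ y / 2 ≤ Z ∧ (100 * g + 1) ^ 2 ≤ Z ∧
      Z₀ ≤ Z ∧ 3 ≤ Z := by
  have hy1 : 1 ≤ y := by linarith
  have hg1 : (1 : ℝ) ≤ g := by exact_mod_cast hg
  have h2pow : (2 : ℝ) ≤ 2 ^ g := le_self_pow₀ (by norm_num) (by omega)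
  set Z : ℕ := ⌊y⌋₊ with hZ
  have hZy : (Z : ℝ) ≤ y := Nat.floor_le (by linarith)
  have hZy2 : y / 2 ≤ Z := by
    have := Nat.lt_floor_add_one y
    rw [← hZ] at this
    linarith
  have hZpos : (0 : ℝ) < Z := by linarith
  have hw : (2400 : ℝ) ^ g ≤ y := hCg 2400 (by norm_num) (by norm_num)
  have hw1 : (1200 : ℝ) ^ g ≤ y := hCg 1200 (by norm_num) (by norm_num)
  set R : ℕ := ⌊y ^ 8 / 300 ^ g⌋₊ with hRdef
  have hR1 : (R : ℝ) * 300 ^ g ≤ y ^ 8 := by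
    rw [← le_div_iff₀ (by positivity)]
    exact Nat.floor_le (by positivity)
  have hyy : y ≤ y ^ 8 := le_self_pow₀ hy1 (by norm_num)
  have hbig : 2 * 300 ^ g ≤ y ^ 8 := by
    calc (2 : ℝ) * 300 ^ g ≤ 4 ^ g * 300 ^ g := by
          gcongr
          calc (2 : ℝ) ≤ 2 ^ g := h2pow
            _ ≤ 4 ^ g := by gcongr; norm_num
      _ = 1200 ^ g := by rw [← mul_pow]; norm_num
      _ ≤ y := hw1
      _ ≤ y ^ 8 := hyy
  have hR2 : y ^ 8 / (2 * 300 ^ g) ≤ R := by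
    have h1 := Nat.lt_floor_add_one (y ^ 8 / 300 ^ g)
    rw [← hRdef] at h1
    have h2 : 2 ≤ y ^ 8 / 300 ^ g := by
      rw [le_div_iff₀ (by positivity)]
      exact hbig
    have h3 : y ^ 8 / (2 * 300 ^ g) = y ^ 8 / 300 ^ g / 2 := by
      rw [mul_comm, div_div]
    rw [h3]
    linarith
  have hypos : 0 < y := by linarith
  have hRpos : (0 : ℝ) < R := lt_of_lt_of_le (by positivity) hR2
  have hRnat : 1 ≤ R := by
    have : 0 < R := by exact_mod_cast hRpos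
    omega
  have hZ3R : 4 ^ g * (Z : ℝ) ^ 3 ≤ R := by
    refine le_trans ?_ hR2
    rw [le_div_iff₀ (by positivity)]
    calc 4 ^ g * (Z : ℝ) ^ 3 * (2 * 300 ^ g) ≤ 4 ^ g * y ^ 3 * (2 ^ g * 300 ^ g) := by gcongr
      _ = 2400 ^ g * y ^ 3 := by
          rw [show (2400 : ℝ) = 4 * 2 * 300 by norm_num, mul_pow, mul_pow]; ring
      _ ≤ y * y ^ 3 := by gcongr
      _ ≤ y ^ 4 * y ^ 4 := by
          rw [show y * y ^ 3 = y ^ 4 by ring]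
          exact le_mul_of_one_le_right (by positivity) (one_le_pow₀ hy1)
      _ = y ^ 8 := by ring
  have hZ3 : 3 ≤ Z := by
    have : (3 : ℝ) ≤ Z := by linarith
    exact_mod_cast this
  have hZ1 : (1 : ℝ) ≤ Z := by linarith
  have h2ρ : 4 ^ g * ((Z : ℝ) ^ 2 / R) ≤ 1 / Z := by
    rw [le_div_iff₀ hZpos]
    rw [← mul_div_assoc, div_mul_eq_mul_div, div_le_one hRpos]
    have e0 : (4 : ℝ) ^ g * (Z : ℝ) ^ 2 * (Z : ℝ) = 4 ^ g * (Z : ℝ) ^ 3 := by ring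
    rw [e0]
    exact hZ3R
  have hρ0 : 0 ≤ (Z : ℝ) ^ 2 / R := by positivity
  refine ⟨Z, R, (Z : ℝ) ^ 2 / R, hRnat, hR1, hρ0, ?_, ?_, h2ρ, hZy2, ?_, ?_, hZ3⟩
  · have h1 : (Z : ℝ) ^ 2 / R ≤ 4 ^ g * ((Z : ℝ) ^ 2 / R) :=
      le_mul_of_one_le_left hρ0 (one_le_pow₀ (by norm_num))
    have h2 : 1 / (Z : ℝ) ≤ 1 := by rw [div_le_one hZpos]; exact hZ1
    linarith
  · rw [div_mul_cancel₀ _ hRpos.ne']
  · have h1 : (((100 * g + 1) ^ 2 : ℕ) : ℝ) ≤ Z := by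
      refine le_trans ?_ hZy2
      rw [le_div_iff₀ (by norm_num)]
      push_cast
      calc (100 * (g : ℝ) + 1) ^ 2 * 2 ≤ (101 * (g : ℝ)) ^ 2 * 2 := by
            gcongr
            linarith
        _ = 20402 * (g : ℝ) ^ 2 := by ring
        _ ≤ 20402 ^ g * (2 ^ g) ^ 2 := by
            gcongr
            · exact le_self_pow₀ (by norm_num) (by omega)
            · exact nat_le_two_pow g
        _ = 81608 ^ g := by
            rw [← pow_mul, mul_comm g 2, pow_mul, ← mul_pow]; norm_num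
        _ ≤ y := hCg _ (by norm_num) (by norm_num)
    exact_mod_cast h1
  · have h1 : (Z₀ : ℝ) ≤ Z := by linarith
    exact_mod_cast h1

/-- The saving. -/
theorem saving2 {g e Z : ℕ} {x y ρ N : ℝ} (hxy : x ^ 2 = y) (hx1 : 1 ≤ x) (hg1 : (1 : ℝ) ≤ g)
    (hρ0 : 0 ≤ ρ) (he : e ≤ 2 * g)
    (h2ρ : 4 ^ g * ρ ≤ 1 / Z) (hZy : y / 2 ≤ Z) (hZ3 : (3 : ℝ) ≤ Z)
    (hN : (Z : ℝ) / (4 * Real.log Z) ≤ N) :
    0 < N ∧ 65536 * (g : ℝ) ^ 12 / N + 3 * (2 ^ e * ρ) ≤ 1048582 * (g : ℝ) ^ 12 / x := by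
  have hy1 : 1 ≤ y := by rw [← hxy]; exact one_le_pow₀ hx1
  have hZpos : (0 : ℝ) < Z := by linarith
  have hlogpos : 0 < Real.log Z := Real.log_pos (by linarith)
  have hNpos : 0 < N := lt_of_lt_of_le (by positivity) hN
  refine ⟨hNpos, ?_⟩
  have hsqrtZ : x / 2 ≤ √(Z : ℝ) := by
    refine Real.le_sqrt_of_sq_le ?_
    have : (x / 2) ^ 2 = y / 4 := by rw [div_pow, hxy]; norm_num
    rw [this]
    linarith
  have hNx : 1 / N ≤ 16 / x := by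
    have h1 : Real.log Z ≤ 2 * √(Z : ℝ) := by
      have h2 : Real.log (√(Z : ℝ)) ≤ √(Z : ℝ) - 1 :=
        Real.log_le_sub_one_of_pos (Real.sqrt_pos.2 hZpos)
      rw [Real.log_sqrt hZpos.le] at h2
      linarith
    have h3 : √(Z : ℝ) * √(Z : ℝ) = Z := Real.mul_self_sqrt hZpos.le
    have h4 : √(Z : ℝ) / 8 ≤ N := by
      refine le_trans ?_ hN
      rw [div_le_div_iff₀ (by norm_num) (by positivity)]
      nlinarith [Real.sqrt_nonneg (Z : ℝ)]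
    rw [div_le_div_iff₀ hNpos (by positivity)]
    linarith
  have hg12 : (1 : ℝ) ≤ (g : ℝ) ^ 12 := one_le_pow₀ hg1
  have h1 : 65536 * (g : ℝ) ^ 12 / N ≤ 65536 * (g : ℝ) ^ 12 * (16 / x) := by
    rw [div_eq_mul_one_div]
    gcongr
  have h2 : 3 * (2 ^ e * ρ) ≤ 6 / x := by
    have h0 : (2 : ℝ) ^ e * ρ ≤ 4 ^ g * ρ := by
      have h01 : (2 : ℝ) ^ e ≤ 4 ^ g := by
        calc (2 : ℝ) ^ e ≤ 2 ^ (2 * g) := pow_le_pow_right₀ (by norm_num) he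
          _ = 4 ^ g := by rw [pow_mul]; norm_num
      exact mul_le_mul_of_nonneg_right h01 hρ0
    have h3 : 1 / (Z : ℝ) ≤ 2 / y := by
      rw [div_le_div_iff₀ hZpos (by positivity)]
      linarith
    have h4 : 2 / y ≤ 2 / x := by
      gcongr
      rw [← hxy]
      nlinarith
    have h5 : 6 / x = 3 * (2 / x) := by ring
    rw [h5]
    linarith
  have h6 : 6 / x ≤ 6 * (g : ℝ) ^ 12 / x := by
    gcongr
    linarith
  calc 65536 * (g : ℝ) ^ 12 / N + 3 * (2 ^ e * ρ) ≤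
        65536 * (g : ℝ) ^ 12 * (16 / x) + 6 * (g : ℝ) ^ 12 / x := by linarith
    _ = 1048582 * (g : ℝ) ^ 12 / x := by ring

/-- The main term. -/
theorem term {g k M : ℕ} {z O U : ℝ} (hz1 : 1 ≤ z) (hg : 1 ≤ g) (hO : 0 ≤ O)
    (hC : ((10 : ℝ) ^ 13) ^ g ≤ z ^ (100 * k)) (hM : 2 * M ≤ 100 * k)
    (hU0 : 0 ≤ U) (hU : U ≤ z ^ (2 * M) * 2000 ^ g * O) :
    (1048582 * (g : ℝ) ^ 12 / z ^ (500 * k)) * (200 ^ g * U) ^ 2 ≤ 1 / z ^ (100 * k) * O ^ 2 := by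
  have hzpos : 0 < z := by linarith
  have hC2 : (1048582 * 4096 * 400000 ^ 2 : ℝ) ^ g ≤ z ^ (200 * k) := by
    calc (1048582 * 4096 * 400000 ^ 2 : ℝ) ^ g ≤ ((10 : ℝ) ^ 13 * (10 : ℝ) ^ 13) ^ g :=
          pow_le_pow_left₀ (by norm_num) (by norm_num) g
      _ = ((10 : ℝ) ^ 13) ^ g * ((10 : ℝ) ^ 13) ^ g := mul_pow _ _ _
      _ ≤ z ^ (100 * k) * z ^ (100 * k) := by gcongr
      _ = z ^ (200 * k) := by rw [← pow_add]; congr 1; ring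
  calc (1048582 * (g : ℝ) ^ 12 / z ^ (500 * k)) * (200 ^ g * U) ^ 2 ≤
        (1048582 ^ g * (2 ^ g) ^ 12 / z ^ (500 * k)) *
          (200 ^ g * (z ^ (2 * M) * 2000 ^ g * O)) ^ 2 := by
        gcongr
        · exact le_self_pow₀ (by norm_num) (by omega)
        · exact nat_le_two_pow g
    _ = ((1048582 * 4096 * 400000 ^ 2) ^ g * z ^ (4 * M) / z ^ (500 * k)) * O ^ 2 := by
        have h1 : ((2 : ℝ) ^ g) ^ 12 = 4096 ^ g := by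
          rw [← pow_mul, mul_comm g 12, pow_mul]; norm_num
        have h2 : (400000 ^ 2 : ℝ) ^ g = (200 ^ g) ^ 2 * (2000 ^ g) ^ 2 := by
          rw [← mul_pow, ← mul_pow, ← pow_mul, ← pow_mul, mul_comm 2 g]; norm_num
        have h3 : z ^ (4 * M) = (z ^ (2 * M)) ^ 2 := by
          rw [← pow_mul]; congr 1; ring
        rw [h1, mul_pow (1048582 * 4096 : ℝ) (400000 ^ 2) g, mul_pow (1048582 : ℝ) 4096 g, h2, h3]
        ring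
    _ ≤ 1 / z ^ (100 * k) * O ^ 2 := by
        refine mul_le_mul_of_nonneg_right ?_ (by positivity)
        rw [div_le_div_iff₀ (by positivity) (by positivity), one_mul]
        have hz4 : z ^ (4 * M) ≤ z ^ (200 * k) := pow_le_pow_right₀ hz1 (by omega)
        calc (1048582 * 4096 * 400000 ^ 2 : ℝ) ^ g * z ^ (4 * M) * z ^ (100 * k) ≤
              z ^ (200 * k) * z ^ (200 * k) * z ^ (100 * k) := by
                refine mul_le_mul_of_nonneg_right ?_ (by positivity)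
                exact mul_le_mul hC2 hz4 (by positivity) (by positivity)
          _ = z ^ (500 * k) := by rw [← pow_add, ← pow_add]; congr 1; ring

theorem bad_sub {p a d₁ d₂ d₃ e₁ e₂ e₃ A Z : ℕ} (hp : p.Prime) (hA : 3 ≤ A) :
    {h : ℤ[X] × ℤ[X] | ¬ HasPat2 (p ^ a) d₁ d₂ d₃ e₁ e₂ e₃ h.1 h.2} ⊆
      BadPair (p ^ a) A Z p d₁ d₂ d₃ e₁ e₂ e₃ := by
  intro h hh ℓ hℓ hpat
  apply hh
  obtain ⟨-, h1, h2, h3⟩ := mem_filter.1 hℓ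
  refine ⟨ℓ, ⟨h1⟩, by omega, ?_, hpat.1, hpat.2⟩
  rw [Ne, ZMod.natCast_eq_zero_iff]
  intro h5
  exact h3 ((Nat.prime_dvd_prime_iff_eq h1 hp).1 (h1.dvd_of_dvd_pow h5))

set_option maxHeartbeats 1000000 in
/-- Large dimension. -/
theorem large2 (hC : Stmt_COVER2) (hS : Stmt_CUBE2) (hPr : FF.Stmt_PRIMES)
    (hL : FF.Stmt_LOWER) (M : ℕ) (hM : M = 8000) :
    ∃ G : ℕ, ∃ Λ : ℝ, 2 ≤ Λ ∧ ∀ g : ℕ, G ≤ g → ∀ z : ℝ, Λ ≤ z → ∀ p a : ℕ, p.Prime → 0 < a →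
      ((p ^ a : ℕ) : ℝ) = z ^ (2 * M) →
      ∀ k d₁ d₂ d₃ k' e₁ e₂ e₃ : ℕ, FF.Adm g k d₁ d₂ d₃ → FF.Adm g k' e₁ e₂ e₃ →
      g ≤ 1000 * k → g ≤ 1000 * k' →
      (((realWeil (p ^ a) g ×ˢ realWeil (p ^ a) g) ∩
        {h : ℤ[X] × ℤ[X] | ¬ HasPat2 (p ^ a) d₁ d₂ d₃ e₁ e₂ e₃ h.1 h.2}).ncard : ℝ) ≤
        1 / z ^ (100 * min k k') * ((ordinary p (p ^ a) g).ncard : ℝ) ^ 2 := by
  obtain ⟨Z₀, hZ₀⟩ := hPr
  obtain ⟨Λ₀, hΛ₀⟩ : ∃ Λ₀ : ℝ, Λ₀ = (10 ^ 13) ^ 10 := ⟨_, rfl⟩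
  have hΛ₀1 : 6 ≤ Λ₀ := by rw [hΛ₀]; norm_num
  have hΛC : ∀ C : ℝ, 1 ≤ C → C ≤ 10 ^ 13 → C ^ 10 ≤ Λ₀ := by
    intro C h1 h2
    rw [hΛ₀]
    exact pow_le_pow_left₀ (by linarith) h2 10
  clear hΛ₀
  refine ⟨160000, max Λ₀ (2 * Z₀), ?_, fun g hg z hz p a hp ha hq k₁ d₁ d₂ d₃ k₂ e₁ e₂ e₃ hadm
    hadm' hgk₁ hgk₂ => ?_⟩
  · exact le_trans (by linarith) (le_max_left _ _)
  obtain ⟨k, hk⟩ : ∃ k, k = min k₁ k₂ := ⟨_, rfl⟩
  rw [← hk]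
  have hgk : g ≤ 1000 * k := by omega
  have hg1 : 160000 ≤ g := hg
  have hk160 : 160 ≤ k := by omega
  have hkg₁ : k₁ ≤ g := by
    obtain ⟨h1, -, -, -, -, -, -, h2, -⟩ := hadm
    omega
  have hkg₂ : k₂ ≤ g := by
    obtain ⟨h1, -, -, -, -, -, -, h2, -⟩ := hadm'
    omega
  have hkk₁ : k ≤ k₁ := by omega
  have hkk₂ : k ≤ k₂ := by omega
  have hg0 : 1 ≤ g := by omega
  have hzC : Λ₀ ≤ z := (le_max_left _ _).trans hz
  have hzZ : 2 * (Z₀ : ℝ) ≤ z := (le_max_right _ _).trans hz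
  have hz1 : (1 : ℝ) ≤ z := by linarith
  have hzpos : 0 < z := by linarith
  have hg1' : (1 : ℝ) ≤ g := by exact_mod_cast hg0
  have hCg : ∀ C : ℝ, 1 ≤ C → C ≤ 10 ^ 13 → C ^ g ≤ z ^ (100 * k) := fun C h1 h2 =>
    pow_le_pow_aux h1 ((hΛC C h1 h2).trans hzC) hgk
  have hM1 : 2 * M ≤ 100 * k := by rw [hM]; omega
  have hMk : (z ^ M) ^ k = (z ^ (1000 * k)) ^ 8 := by
    rw [← pow_mul, ← pow_mul, hM]
    congr 1
    ring
  obtain ⟨x, hx⟩ : ∃ x : ℝ, x = z ^ (500 * k) := ⟨_, rfl⟩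
  obtain ⟨y, hy⟩ : ∃ y : ℝ, y = z ^ (1000 * k) := ⟨_, rfl⟩
  have hxy : x ^ 2 = y := by rw [hx, hy, ← pow_mul]; congr 1; ring
  have hx1 : 1 ≤ x := by rw [hx]; exact one_le_pow₀ hz1
  have hyz : z ≤ y := by rw [hy]; exact le_self_pow₀ hz1 (by omega)
  have hyk : z ^ (100 * k) ≤ y := by rw [hy]; exact pow_le_pow_right₀ hz1 (by omega)
  obtain ⟨Z, R, ρ, hRnat, hR1, hρ0, hρ1, hZρ, h2ρ, hZy, hA2, hZZ₀, hZ3⟩ :=
    params2 (g := g) (Z₀ := Z₀) (y := y) hg0 (fun C h1 h2 => (hCg C h1 h2).trans hyk)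
      (by linarith) (by linarith)
  -- the square root of `q`
  obtain ⟨q, hqdef⟩ : ∃ q : ℕ, q = p ^ a := ⟨_, rfl⟩
  rw [← hqdef] at hq ⊢
  have hq2 : 2 ≤ q := by
    have := Nat.one_lt_pow ha.ne' hp.one_lt
    omega
  have hs : √(q : ℝ) = z ^ M := by
    rw [hq, mul_comm, pow_mul]
    exact Real.sqrt_sq (by positivity)
  have hzM1 : 1 ≤ z ^ M := one_le_pow₀ hz1
  have hprimes := hZ₀ Z hZZ₀ (100 * g + 1) p hA2
  obtain ⟨N, hN⟩ : ∃ N : ℝ, N = (((range (Z + 1)).filter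
    fun ℓ => ℓ.Prime ∧ 100 * g + 1 ≤ ℓ ∧ ℓ ≠ p).card : ℝ) := ⟨_, rfl⟩
  rw [← hN] at hprimes
  obtain ⟨hNpos, hη⟩ := saving2 (g := g) (e := (g - k₁) + (g - k₂)) (Z := Z) hxy hx1 hg1' hρ0
    (by omega) h2ρ hZy (by exact_mod_cast hZ3) hprimes
  have hNnat : 0 < ((range (Z + 1)).filter fun ℓ => ℓ.Prime ∧ 100 * g + 1 ≤ ℓ ∧ ℓ ≠ p).card := by
    rw [hN] at hNpos
    exact_mod_cast hNpos
  -- the count
  have hcover := hC q g k₁ k₂ R (65536 * (g : ℝ) ^ 12 / N + 3 * (2 ^ ((g - k₁) + (g - k₂)) * ρ))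
    (BadPair q (100 * g + 1) Z p d₁ d₂ d₃ e₁ e₂ e₃) hq2 hg0 hkg₁ hkg₂ hRnat
    (by
      rw [hs]
      refine hR1.trans ?_
      rw [hy, ← hMk]
      exact pow_le_pow_right₀ hzM1 hkk₁)
    (by
      rw [hs]
      refine hR1.trans ?_
      rw [hy, ← hMk]
      exact pow_le_pow_right₀ hzM1 hkk₂) (by positivity)
    (fun t t' u u' => by
      rw [hqdef, hN]
      exact hS p a g k₁ d₁ d₂ d₃ k₂ e₁ e₂ e₃ (100 * g + 1) Z R ρ hp hadm hadm' (by omega) hg0 hρ0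
        hρ1 hZρ hNnat t t' u u')
  have hlow := hL p a g hp ha hg0
  have hsq : √((p : ℝ) ^ a) = √(q : ℝ) := by rw [hqdef]; push_cast; rfl
  rw [hsq, ← hqdef] at hlow
  obtain ⟨U, hU⟩ : ∃ U : ℝ, U = √(q : ℝ) ^ (g * (g + 1) / 2) / √(g.factorial : ℝ) := ⟨_, rfl⟩
  have hfac : (0 : ℝ) < √(g.factorial : ℝ) := Real.sqrt_pos.2 (by exact_mod_cast g.factorial_pos)
  have hspos : 0 < √(q : ℝ) := by rw [hs]; positivity
  have hUpos : 0 < U := by rw [hU]; positivity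
  obtain ⟨O, hO⟩ : ∃ O : ℝ, O = ((ordinary p q g).ncard : ℝ) := ⟨_, rfl⟩
  rw [← hO] at hlow ⊢
  have hppos : (0 : ℝ) < p := by exact_mod_cast hp.pos
  have hO0 : 0 ≤ O := by rw [hO]; positivity
  have h1 : √(q : ℝ) ^ (g * (g + 1) / 2) / (p * 2000 ^ g * √(g.factorial : ℝ)) =
      U / (p * 2000 ^ g) := by
    rw [hU, div_div, mul_comm (√(g.factorial : ℝ))]
  rw [h1] at hlow
  have hUO : U ≤ z ^ (2 * M) * 2000 ^ g * O := by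
    rw [div_le_iff₀ (by positivity)] at hlow
    refine hlow.trans ?_
    rw [mul_comm]
    have h2 : (p : ℝ) ≤ z ^ (2 * M) := by
      rw [← hq, hqdef]
      exact_mod_cast Nat.le_self_pow ha.ne' p
    gcongr
  have hfin : (realWeil q g).Finite := realWeil_finite q
  have hfin2 : ((realWeil q g ×ˢ realWeil q g) ∩
      BadPair q (100 * g + 1) Z p d₁ d₂ d₃ e₁ e₂ e₃).Finite :=
    (hfin.prod hfin).subset Set.inter_subset_left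
  have hsub : (realWeil q g ×ˢ realWeil q g) ∩
      {h : ℤ[X] × ℤ[X] | ¬ HasPat2 q d₁ d₂ d₃ e₁ e₂ e₃ h.1 h.2} ⊆
      (realWeil q g ×ˢ realWeil q g) ∩ BadPair q (100 * g + 1) Z p d₁ d₂ d₃ e₁ e₂ e₃ := by
    refine Set.inter_subset_inter_right _ ?_
    rw [hqdef]
    exact bad_sub hp (by omega)
  have hcard : ((((realWeil q g ×ˢ realWeil q g) ∩
      {h : ℤ[X] × ℤ[X] | ¬ HasPat2 q d₁ d₂ d₃ e₁ e₂ e₃ h.1 h.2}).ncard : ℕ) : ℝ) ≤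
      ((((realWeil q g ×ˢ realWeil q g) ∩
        BadPair q (100 * g + 1) Z p d₁ d₂ d₃ e₁ e₂ e₃).ncard : ℕ) : ℝ) := by
    exact_mod_cast Set.ncard_le_ncard hsub hfin2
  refine hcard.trans (hcover.trans ?_)
  have e1 : (200 : ℝ) ^ g * √(q : ℝ) ^ (g * (g + 1) / 2) / √(g.factorial : ℝ) =
      200 ^ g * U := by
    rw [hU, mul_div_assoc]
  rw [e1]
  refine le_trans (mul_le_mul_of_nonneg_right hη (by positivity)) ?_
  rw [hx]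
  exact term hz1 hg0 hO0 (hCg _ (by norm_num) le_rfl) hM1 hUpos.le hUO

end LARGE2

/-- LARGE2. -/
theorem stmt_LARGE2 : Stmt_COVER2 → Stmt_CUBE2 → FF.Stmt_PRIMES → FF.Stmt_LOWER → Stmt_LARGE2 := by
  intro hC hS hPr hL
  obtain ⟨M, hM⟩ : ∃ M : ℕ, M = 8000 := ⟨_, rfl⟩
  obtain ⟨G, Λ, hΛ, hlarge⟩ := LARGE2.large2 hC hS hPr hL M hM
  have hM0 : (0 : ℝ) < 2 * M := by
    have : 0 < M := by omega
    positivity
  refine ⟨1 / 160000, by norm_num, max G 1, ⌈Λ ^ (2 * M)⌉₊, fun p a hp ha hQ g hg k d₁ d₂ d₃ k' e₁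
    e₂ e₃ hadm hadm' hgk hgk' => ?_⟩
  obtain ⟨q, hq⟩ : ∃ q : ℝ, q = ((p ^ a : ℕ) : ℝ) := ⟨_, rfl⟩
  have hqq : (p : ℝ) ^ a = q := by rw [hq]; push_cast; rfl
  rw [hqq]
  have hq1 : (1 : ℝ) ≤ q := by
    rw [hq]
    exact_mod_cast Nat.one_le_pow _ _ hp.pos
  have hqpos : 0 < q := by linarith
  have hg0 : (0 : ℝ) ≤ g := Nat.cast_nonneg g
  obtain ⟨z, hz⟩ : ∃ z : ℝ, z = q ^ (1 / (2 * (M : ℝ))) := ⟨_, rfl⟩
  have hzpos : 0 < z := by rw [hz]; exact Real.rpow_pos_of_pos hqpos _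
  have hzq : z ^ (2 * M) = q := by
    rw [hz, ← Real.rpow_natCast, ← Real.rpow_mul hqpos.le]
    push_cast
    rw [one_div, inv_mul_cancel₀ hM0.ne', Real.rpow_one]
  have hΛq : Λ ^ (2 * M) ≤ q := by
    have h1 := Nat.le_ceil (Λ ^ (2 * M))
    have h2 : ((⌈Λ ^ (2 * M)⌉₊ : ℕ) : ℝ) ≤ q := by
      rw [hq]
      exact_mod_cast hQ
    linarith
  have hΛz : Λ ≤ z := by
    rw [← hzq] at hΛq
    exact le_of_pow_le_pow_left₀ (by omega) hzpos.le hΛq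
  have hz1 : 1 ≤ z := by linarith
  have h1 := hlarge g ((le_max_left _ _).trans hg) z hΛz p a hp ha (by rw [← hq, hzq]) k d₁ d₂ d₃
    k' e₁ e₂ e₃ hadm hadm' hgk hgk'
  refine h1.trans ?_
  refine mul_le_mul_of_nonneg_right ?_ (by positivity)
  have hkk : (g : ℝ) ≤ 1000 * ((min k k' : ℕ) : ℝ) := by
    have : g ≤ 1000 * min k k' := by omega
    exact_mod_cast this
  have e1 : z ^ (100 * min k k') = q ^ (1 / (2 * (M : ℝ)) * ((100 * min k k' : ℕ) : ℝ)) := by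
    rw [hz, ← Real.rpow_natCast, ← Real.rpow_mul hqpos.le]
  rw [e1, one_div, ← Real.rpow_neg hqpos.le]
  apply Real.rpow_le_rpow_of_exponent_le hq1
  obtain ⟨mn, hmn⟩ : ∃ mn : ℕ, mn = min k k' := ⟨_, rfl⟩
  rw [← hmn] at hkk ⊢
  have e2 : (1 / (2 * (M : ℝ)) * ((100 * mn : ℕ) : ℝ)) = (mn : ℝ) / 160 := by
    rw [hM]
    push_cast
    ring
  rw [e2]
  linarith

end Pool.Agent.Work.FY
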